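import Pool.Agent.H.MP_f3b8e9_an.B

set_option autoImplicit false

open Complex Set

namespace Pool.Agent.Results.MP_f3b8e9_an.Counter

open Pool.Agent.H.MP_f3b8e9_an

theorem result :
    ∃ (Ω : Set ℂ) (φ : Fin 2 → (ℂ → ℂ) →ₗ[ℂ] ℂ) (μ : ℂ) (y : Fin 2 → ℂ → ℂ) (f : ℂ → ℂ),
      IsOpen Ω ∧ Convex ℝ Ω ∧ (0 : ℂ) ∈ Ω ∧
      (∀ k, ∃ K ⊆ Ω, IsCompact K ∧ ∃ C : ℝ, ∀ (g : ℂ → ℂ) (M : ℝ),
        (∀ z ∈ K, ‖g z‖ ≤ M) → ‖φ k g‖ ≤ C * M) ∧
      (∀ k, DifferentiableOn ℂ (y k) Ω ∧ (∀ z ∈ Ω, iteratedDeriv 2 (y k) z = μ * y k z) ∧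
        ∀ p : Fin 2, iteratedDeriv p (y k) 0 = if k = p then 1 else 0) ∧
      Matrix.det (Matrix.of fun k j => φ j (y k)) ≠ 0 ∧
      DifferentiableOn ℂ f Ω ∧ (∀ k q, φ k ((iteratedDeriv 2)^[q] f) = 0) ∧
      ∃ K ⊆ Ω, IsCompact K ∧ ∃ ε : ℝ, 0 < ε ∧
        ∀ g ∈ Submodule.span ℂ {r : ℂ → ℂ | DifferentiableOn ℂ r Ω ∧ ∃ (l : ℂ) (m : ℕ), 1 ≤ m ∧
            (∀ k, ∀ q < m, φ k ((iteratedDeriv 2)^[q] r) = 0) ∧
            ∀ z ∈ Ω, ((fun (u : ℂ → ℂ) (w : ℂ) => iteratedDeriv 2 u w - l * u w)^[m] r) z = 0},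
          ∃ z ∈ K, ε ≤ ‖f z - g z‖ := by
  let ev : ℂ → ℂ → (ℂ → ℂ) →ₗ[ℂ] ℂ := fun p q =>
    LinearMap.proj (R := ℂ) (φ := fun _ : ℂ => ℂ) p - LinearMap.proj (R := ℂ) (φ := fun _ : ℂ => ℂ) q
  have hev : ∀ p q g, ev p q g = g p - g q := fun _ _ _ => rfl
  have hb : ∀ p ∈ Om, ∀ q ∈ Om, ∃ K ⊆ Om, IsCompact K ∧ ∃ C : ℝ, ∀ (g : ℂ → ℂ) (M : ℝ),
      (∀ z ∈ K, ‖g z‖ ≤ M) → ‖ev p q g‖ ≤ C * M := by
    intro p hp q hq
    refine ⟨{p, q}, ?_, (Set.toFinite _).isCompact, 2, fun g M h => ?_⟩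
    · rintro z (rfl | rfl) <;> assumption
    · rw [hev]
      linarith [norm_sub_le (g p) (g q), h p (by simp), h q (by simp)]
  refine ⟨Om, ![ev (cc + 1) (cc - 1), ev I (-I)], 1, ![cosh, sinh], ff, Om_open, Om_convex,
    by simp [Om]; norm_num, ?_, ?_, ?_, ff_diff, ?_, KK, KK_sub, KK_compact, 1 / 100, by norm_num, ?_⟩
  · intro k
    fin_cases k
    · exact hb _ p1 _ q1
    · exact hb _ p2 _ q2
  · intro k
    fin_cases k
    · refine ⟨differentiable_cosh.differentiableOn, fun z _ => by simp, fun p => ?_⟩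
      fin_cases p <;> simp
    · refine ⟨differentiable_sinh.differentiableOn, fun z _ => by simp, fun p => ?_⟩
      fin_cases p <;> simp
  · rw [Matrix.det_fin_two]
    simp only [Matrix.of_apply, Matrix.cons_val_zero, Matrix.cons_val_one, hev, cosh_neg, sub_self,
      zero_mul, sub_zero, sinh_neg]
    have e : cc = ((1 / 50 : ℝ) : ℂ) := by apply Complex.ext <;> simp [cc]
    have h1 : cosh (cc + 1) - cosh (cc - 1) = 2 * sinh cc * sinh 1 := by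
      rw [cosh_add, cosh_sub]
      ring
    have h2 : sinh I = sin 1 * I := by simpa using sinh_mul_I 1
    have h3 : sinh cc ≠ 0 := by
      rw [e, ← ofReal_sinh]
      exact_mod_cast (Real.sinh_pos_iff.2 (by norm_num)).ne'
    have h4 : sinh (1 : ℂ) ≠ 0 := by
      rw [← ofReal_one, ← ofReal_sinh]
      exact_mod_cast (Real.sinh_pos_iff.2 (by norm_num)).ne'
    have h5 : sin (1 : ℂ) ≠ 0 := by
      rw [← ofReal_one, ← ofReal_sin]
      exact_mod_cast (Real.sin_pos_of_pos_of_le_one one_pos le_rfl).ne'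
    rw [h1, h2, sub_neg_eq_add, ← two_mul]
    simp [h3, h4, h5]
  · intro k q
    rw [iter2]
    fin_cases k
    · exact ff_z1 q
    · exact ff_z2 q
  · intro g hg
    refine span_far g (Submodule.span_mono ?_ hg)
    rintro r ⟨hd, l, m, -, a, b⟩
    refine ⟨hd, l, m, fun j hj => ?_, fun j hj => ?_, b⟩
    · have := a 0 j hj
      rw [iter2] at this
      exact this
    · have := a 1 j hj
      rw [iter2] at this
      exact this

end Pool.Agent.Results.MP_f3b8e9_an.Counter
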